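import Pool.Agent.Lib.MP_571595_lc.MORT.Defs

/-!
# Mortality of 2x2 integer matrices: statements of the modules
-/

set_option autoImplicit false

namespace Pool.Agent.Lib.MP_571595_lc.MORT

/-! ### MOB: action on the projective line in coordinates -/

/-- MOB -/
structure MobStatement : Prop where
  el_pt : ∀ (T : Ty) (b z : ℚ), z ≠ 0 → z + b ≠ 0 → El T b • pt T z = pt T (z + b)
  dg_pt : ∀ (t : ℚˣ) (T : Ty) (z : ℚ), z ≠ 0 → Dg t • pt T z = pt T ((t : ℚ) ^ T.sg * z)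
  pt_op : ∀ (T : Ty) (z : ℚ), pt T.op z = pt T z⁻¹
  coord_pt : ∀ (T : Ty) (z : ℚ), coord T (pt T z) = z
  el_mul : ∀ (T : Ty) (b c : ℚ), El T b * El T c = El T (b + c)
  el_inv : ∀ (T : Ty) (b : ℚ), (El T b)⁻¹ = El T (-b)
  dg_mul : ∀ t u : ℚˣ, Dg t * Dg u = Dg (t * u)
  dg_inv : ∀ t : ℚˣ, (Dg t)⁻¹ = Dg t⁻¹

/-! ### SYS: the transitions in coordinates, both sides -/

/-- SYS -/
structure SysStatement : Prop where
  trav_tgt : ∀ {J Q R : Type} (C : CM J Q R) (l : Bool) (τ : Tr J Q R) (j : J),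
    τ.trav = some j → tgtS C l τ = srcS C l τ
  gate_ty : ∀ {J Q R : Type} (C : CM J Q R) (l : Bool) (τ : Tr J Q R),
    τ.trav = none → (tgtS C l τ).ty = (srcS C l τ).ty.op
  trav_act : ∀ {J Q R : Type} [Fintype J] [DecidableEq J] (C : CM J Q R) (D : Data C)
    (l : Bool) (τ : Tr J Q R) (j : J) (z : ℚ), τ.trav = some j → z ≠ 0 →
    D.lab l τ • pt (srcS C l τ).ty z =
      pt (srcS C l τ).ty ((D.rho (Pi.single j 1) : ℚ) ^ epsS l * z)
  gate_act : ∀ {J Q R : Type} [Fintype J] [DecidableEq J] (C : CM J Q R) (D : Data C)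
    (l : Bool) (τ : Tr J Q R) (z : ℚ), τ.trav = none → z ≠ 0 →
    sgnS C l τ * D.out l (srcS C l τ).ty + z ≠ 0 →
    sgnS C l τ * D.out l (srcS C l τ).ty +
      ((D.rho (τ.z C) : ℚ) * (sgnS C l τ * D.out l (srcS C l τ).ty + z))⁻¹ ≠ 0 →
    D.lab l τ • pt (tgtS C l τ).ty z =
      pt (srcS C l τ).ty (sgnS C l τ * D.out l (srcS C l τ).ty +
        ((D.rho (τ.z C) : ℚ) * (sgnS C l τ * D.out l (srcS C l τ).ty + z))⁻¹)

/-! ### JUNC: passing from one coding matrix to another -/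

/-- JUNC -/
def JuncStatement : Prop :=
  ∀ {J Q R : Type} [Fintype J] [Nonempty J] (C : CM J Q R) (D : Data C)
    (a b : St Q R) (x : ℚ), a ≠ b → x ≠ 0 → (∀ i, D.v i x ≠ -D.ek b) →
    ∃ z : ℚ, z ≠ 0 ∧ D.Cm a • (D.Cm b)⁻¹ • pt b.ty x = pt a.ty z ∧ ∀ i, D.v i z = -D.ek a

/-! ### NORM: Lemma N -/

section

variable {J Q R : Type} [Fintype J] [DecidableEq J] {C : CM J Q R} (D : Data C)

/-- the level is left through a gate -/
def Data.ShG (c0 : J → ℕ) (l : Bool) (a : St Q R) (w : List (Tr J Q R)) : Prop :=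
  ∃ (n : J → ℕ) (τ : Tr J Q R) (w' : List (Tr J Q R)),
    Allowed C a n ∧ τ.trav = none ∧ srcS C l τ = a ∧ OkW C w' ∧ w'.length < w.length ∧
    sgnS C l τ * D.out l a.ty + D.ze c0 l (tgtS C l τ) w' ≠ 0 ∧
    D.ze c0 l a w = (D.rho (toZ n) : ℚ) ^ epsS l * (sgnS C l τ * D.out l a.ty +
      ((D.rho (τ.z C) : ℚ) * (sgnS C l τ * D.out l a.ty + D.ze c0 l (tgtS C l τ) w'))⁻¹) ∧
    ∀ i, D.v i (D.ze c0 l a w) = -D.eo l a.ty + epsS l * D.v i (D.rho (toZ n))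

/-- the word ends in this level -/
def Data.ShE (c0 : J → ℕ) (l : Bool) (a : St Q R) (w : List (Tr J Q R)) : Prop :=
  ∃ n : J → ℕ, Allowed C a n ∧ a = aeS l ∧
    D.ze c0 l a w = (D.rho (toZ n) : ℚ) ^ epsS l * D.ec c0 l

/-- there is a mismatch in this level -/
def Data.ShJ (c0 : J → ℕ) (l : Bool) (a : St Q R) (w : List (Tr J Q R)) : Prop :=
  ∃ n : J → ℕ, ∀ i, D.v i (D.ze c0 l a w) = -D.ek a + epsS l * D.v i (D.rho (toZ n))

end

/-- NORM (Lemma N) -/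
def NormStatement : Prop :=
  ∀ {J Q R : Type} [Fintype J] [DecidableEq J] [Nonempty J] (C : CM J Q R) (D : Data C)
    (c0 : J → ℕ) (l : Bool) (a : St Q R) (w : List (Tr J Q R)), OkW C w →
    D.ze c0 l a w ≠ 0 ∧ D.Cm a • D.X c0 l w = pt a.ty (D.ze c0 l a w) ∧
      (D.ShG c0 l a w ∨ D.ShE c0 l a w ∨ D.ShJ c0 l a w)

/-! ### REC: the matched cases of Lemma N, as equations -/

/-- REC -/
structure RecStatement : Prop where
  /-- the empty word at the end state -/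
  nil : ∀ {J Q R : Type} [Fintype J] [DecidableEq J] (C : CM J Q R) (D : Data C)
    (c0 : J → ℕ) (l : Bool), D.ze c0 l (aeS l) [] = D.ec c0 l
  /-- a travel -/
  trav : ∀ {J Q R : Type} [Fintype J] [DecidableEq J] [Nonempty J] (C : CM J Q R) (D : Data C)
    (c0 : J → ℕ) (l : Bool) (τ : Tr J Q R) (j : J) (w : List (Tr J Q R)),
    OkW C (τ :: w) → τ.trav = some j →
    D.ze c0 l (srcS C l τ) (τ :: w) =
      (D.rho (Pi.single j 1) : ℚ) ^ epsS l * D.ze c0 l (srcS C l τ) w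
  /-- a gate -/
  gate : ∀ {J Q R : Type} [Fintype J] [DecidableEq J] [Nonempty J] (C : CM J Q R) (D : Data C)
    (c0 : J → ℕ) (l : Bool) (τ : Tr J Q R) (w : List (Tr J Q R)),
    OkW C (τ :: w) → τ.trav = none →
    D.ze c0 l (srcS C l τ) (τ :: w) = sgnS C l τ * D.out l (srcS C l τ).ty +
      ((D.rho (τ.z C) : ℚ) *
        (sgnS C l τ * D.out l (srcS C l τ).ty + D.ze c0 l (tgtS C l τ) w))⁻¹

/-! ### LEVEL: Lemma L -/

/-- LEVEL (Lemma L) -/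
def LevelStatement : Prop :=
  ∀ {J : Type} [Fintype J] [Nonempty J] (pr : J ⊕ J → ℕ) (_ : ∀ i, (pr i).Prime)
    (M es ep e1 e2 : ℤ) (_ : es < ep) (_ : ep < e1) (_ : ep < e2) (_ : e1 < es + M)
    (_ : e2 < es + M) (_ : e1 ≠ e2)
    (rho : (J → ℤ) → ℚˣ) (_ : ∀ z w, rho (z + w) = rho z * rho w)
    (_ : ∀ z i, padicValRat (pr (.inl i)) (rho z : ℚ) = M * ell z i)
    (_ : ∀ z i, padicValRat (pr (.inr i)) (rho z : ℚ) = -(M * ell z i))
    (s p : ℚ) (_ : s ≠ 0) (_ : p ≠ 0) (_ : ∀ i, padicValRat (pr i) s = -es)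
    (_ : ∀ i, padicValRat (pr i) p = -ep)
    (x x' : ℚ) (_ : x ≠ 0) (_ : x' ≠ 0) (n m : J → ℕ) (O A : J → ℤ) (e e' : ℤ)
    (_ : e = es ∨ e = e1) (_ : e' = ep ∨ e' = e2)
    (_ : ∀ i, padicValRat (pr i) x = -e + padicValRat (pr i) (rho (toZ n) : ℚ))
    (_ : ∀ i, padicValRat (pr i) x' = -e' - padicValRat (pr i) (rho (toZ m) : ℚ))
    (_ : (rho O : ℚ) * (-p + x) = rho A * (-s + x')),
    e = es ∧ e' = ep ∧ A = O + toZ n ∧ n = m

/-! ### DEC: decoding -/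

/-- DEC -/
def DecStatement : Prop :=
  ∀ {J Q R : Type} [Fintype J] [DecidableEq J] [Nonempty J] (C : CM J Q R) (D : Data C)
    (c0 : J → ℕ) (wL wR : List (Tr J Q R)), OkW C wL → OkW C wR → ∀ (q : Q) (O A : J → ℤ),
    D.HU c0 q O A wL wR → ∃ n : J → ℕ, A = O + toZ n ∧ C.Reach (C.qin, c0) (q, n)

/-! ### RUN: completeness -/

/-- RUN -/
def RunStatement : Prop :=
  ∀ {J Q R : Type} [Fintype J] [DecidableEq J] [Nonempty J] (C : CM J Q R) (D : Data C)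
    (c0 : J → ℕ) (q : Q) (n : J → ℕ), C.Reach (C.qin, c0) (q, n) →
    ∃ wL wR : List (Tr J Q R), OkW C wL ∧ OkW C wR ∧ D.HU c0 q 0 (toZ n) wL wR

/-! ### TWO: exactly one turning letter -/

/-- TWO -/
def TwoStatement : Prop :=
  ∀ {J Q R : Type} [Fintype J] [DecidableEq J] (C : CM J Q R) (D : Data C)
    (c0 : J → ℕ) (w : List (Option (Tr J Q R))),
    (w.map D.letter).prod • D.pe c0 false = D.pe c0 true →
    ∃ w₁ w₂ : List (Tr J Q R), w = w₁.map some ++ none :: w₂.map some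

/-! ### HIT: Proposition A -/

/-- the hitting problem -/
def Data.Hit {J Q R : Type} [Fintype J] [DecidableEq J] {C : CM J Q R} (D : Data C)
    (c0 : J → ℕ) : Prop :=
  ∃ w : List (Option (Tr J Q R)), (∀ τ, some τ ∈ w → τ.ok C) ∧
    (w.map D.letter).prod • D.pe c0 false = D.pe c0 true

/-- HIT -/
def HitStatement : Prop :=
  ∀ {J Q R : Type} [Fintype J] [DecidableEq J] [Nonempty J] (C : CM J Q R) (D : Data C)
    (c0 : J → ℕ), D.Hit c0 ↔ C.Reach (C.qin, c0) (C.qh, 0)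

/-! ### DATA: existence of the arithmetic data -/

/-- DATA -/
def DataStatement : Prop :=
  ∀ {J Q R : Type} [Fintype J] [Finite Q] [Finite R] (C : CM J Q R), Nonempty (Data C)

/-! ### MACH: counter machines compute all partial recursive functions -/

/-- MACH -/
def MachStatement : Prop :=
  ∀ f : ℕ →. ℕ, Partrec f → ∃ (Q R : Type) (_ : Finite Q) (_ : Finite R) (C : CM (Fin 5) Q R)
    (N : ℕ → ℕ), Computable N ∧
      ∀ n, (f n).Dom ↔ C.Reach (C.qin, Pi.single 0 (N n)) (C.qh, 0)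

/-! ### MORTAL: from hitting to mortality -/

/-- the predicate of the frozen statement -/
def Mortal (L : List (ℤ × ℤ × ℤ × ℤ)) : Prop :=
  ∃ w : List (ℤ × ℤ × ℤ × ℤ), w ≠ [] ∧ (∀ x ∈ w, x ∈ L) ∧
    (w.map (fun x : ℤ × ℤ × ℤ × ℤ =>
      !![x.1, x.2.1; x.2.2.1, x.2.2.2])).prod = (0 : Matrix (Fin 2) (Fin 2) ℤ)

/-- MORTAL -/
def MortalStatement : Prop :=
  ∀ {ι : Type} [Finite ι] (M : ι → G), ∃ L : List (ℤ × ℤ × ℤ × ℤ), ∀ a b c d : ℤ,
    (a ≠ 0 ∨ b ≠ 0) → (c ≠ 0 ∨ d ≠ 0) →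
    (Mortal (L ++ [(a * c, a * d, b * c, b * d)]) ↔ ∃ w : List ι,
      (c : ℚ) * ((w.map M).prod 0 0 * a + (w.map M).prod 0 1 * b) +
        d * ((w.map M).prod 1 0 * a + (w.map M).prod 1 1 * b) = 0)

/-! ### RED: the reduction -/

/-- the last matrix of the instance -/
def lastM (α β : ℕ) (A B : Fin 4 → ℤ) (N : ℕ) : ℤ × ℤ × ℤ × ℤ :=
  (A 0 * (α : ℤ) ^ N + B 0 * (β : ℤ) ^ N, A 1 * (α : ℤ) ^ N + B 1 * (β : ℤ) ^ N,
    A 2 * (α : ℤ) ^ N + B 2 * (β : ℤ) ^ N, A 3 * (α : ℤ) ^ N + B 3 * (β : ℤ) ^ N)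

/-- RED -/
def RedStatement : Prop :=
  ∀ {Q R : Type} [Finite Q] [Finite R] (C : CM (Fin 5) Q R) (D : Data C),
    ∃ (L : List (ℤ × ℤ × ℤ × ℤ)) (α β : ℕ) (A B : Fin 4 → ℤ), ∀ N : ℕ,
      Mortal (L ++ [lastM α β A B N]) ↔ D.Hit (Pi.single 0 N)

/-! ### COMP: computability of the reduction -/

/-- COMP -/
def CompStatement : Prop :=
  ∀ (L : List (ℤ × ℤ × ℤ × ℤ)) (α β : ℕ) (A B : Fin 4 → ℤ) (N : ℕ → ℕ), Computable N →
    Computable fun n => L ++ [lastM α β A B (N n)]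

/-! ### FINAL -/

/-- FINAL: the frozen statement S14732 -/
def FinalStatement : Prop := ¬ ComputablePred Mortal

end Pool.Agent.Lib.MP_571595_lc.MORT
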