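import Mathlib

/-!
# Mortality of 2x2 integer matrices: definitions

See `Paper.md` in this folder for the mathematics.
-/

set_option autoImplicit false

namespace Pool.Agent.Lib.MP_571595_lc.MORT

/-! ## Counter machines -/

/-- A (non-deterministic) counter machine: counters `J`, control states `Q`, instructions `R`. -/
structure CM (J Q R : Type) where
  src : R → Q
  dst : R → Q
  /-- `zt r j`: the instruction `r` requires that counter `j` is zero -/
  zt : R → J → Prop
  /-- the vector added to the counters -/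
  del : R → J → ℤ
  qin : Q
  qh : Q

variable {J Q R : Type}

/-- one step of a counter machine -/
def CM.Step (C : CM J Q R) (x y : Q × (J → ℕ)) : Prop :=
  ∃ r, C.src r = x.1 ∧ C.dst r = y.1 ∧ (∀ j, C.zt r j → x.2 j = 0) ∧
    ∀ j, (y.2 j : ℤ) = x.2 j + C.del r j

/-- reachability -/
def CM.Reach (C : CM J Q R) : Q × (J → ℕ) → Q × (J → ℕ) → Prop :=
  Relation.ReflTransGen C.Step

/-! ## The projective line -/

/-- types of levels -/
inductive Ty : Type
  | U
  | L
  deriving DecidableEq

/-- the other type -/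
def Ty.op : Ty → Ty
  | .U => .L
  | .L => .U

/-- `Dg t` multiplies the `T`-coordinate by `t ^ T.sg` -/
def Ty.sg : Ty → ℤ
  | .U => 1
  | .L => -1

/-- the group -/
abbrev G : Type := GL (Fin 2) ℚ

/-- elementary matrices: `El T b` adds `b` to the `T`-coordinate -/
noncomputable def El : Ty → ℚ → G
  | .U, b => Matrix.GeneralLinearGroup.mkOfDetNeZero !![1, b; 0, 1] (by simp)
  | .L, b => Matrix.GeneralLinearGroup.mkOfDetNeZero !![1, 0; b, 1] (by simp)

/-- diagonal matrices: `Dg t` multiplies the `U`-coordinate by `t` -/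
noncomputable def Dg (t : ℚˣ) : G :=
  Matrix.GeneralLinearGroup.mkOfDetNeZero !![(t : ℚ), 0; 0, 1] (by simp)

/-- the point with `T`-coordinate `z` (used only for `z ≠ 0`) -/
noncomputable def pt : Ty → ℚ → OnePoint ℚ
  | .U, z => ((z : ℚ) : OnePoint ℚ)
  | .L, z => ((z⁻¹ : ℚ) : OnePoint ℚ)

/-- the `T`-coordinate of a point (used only for points different from `0` and infinity) -/
noncomputable def coord : Ty → OnePoint ℚ → ℚ
  | .U, x => x.elim 0 id
  | .L, x => (x.elim 0 id)⁻¹

/-! ## The automaton -/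

/-- states of the automaton -/
inductive St (Q R : Type) : Type
  | q0
  | U (q : Q)
  | L (r : R)
  | AU
  | AL

/-- type of a state -/
def St.ty : St Q R → Ty
  | .q0 => .L
  | .U _ => .U
  | .L _ => .L
  | .AU => .U
  | .AL => .L

/-- ascending states -/
def St.asc : St Q R → Bool
  | .AU => true
  | .AL => true
  | _ => false

/-- transitions of the automaton (without the turning transition) -/
inductive Tr (J Q R : Type) : Type
  | tU (q : Q) (j : J)
  | gU (r : R)
  | tL (r : R) (j : J)
  | gL (r : R)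
  | g0
  | aU (j : J)
  | aG
  | aL (j : J)
  | aH

/-- source of a transition -/
def Tr.a (C : CM J Q R) : Tr J Q R → St Q R
  | .tU q _ => .U q
  | .gU r => .U (C.src r)
  | .tL r _ => .L r
  | .gL r => .L r
  | .g0 => .q0
  | .aU _ => .AU
  | .aG => .AU
  | .aL _ => .AL
  | .aH => .AL

/-- target of a transition -/
def Tr.b (C : CM J Q R) : Tr J Q R → St Q R
  | .tU q _ => .U q
  | .gU r => .L r
  | .tL r _ => .L r
  | .gL r => .U (C.dst r)
  | .g0 => .U C.qin
  | .aU _ => .AU
  | .aG => .AL
  | .aL _ => .AL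
  | .aH => .AU

/-- the only restriction: no travel along a counter that is tested for zero -/
def Tr.ok (C : CM J Q R) : Tr J Q R → Prop
  | .tL r j => ¬ C.zt r j
  | _ => True

/-- `some j` for travels, `none` for gates -/
def Tr.trav : Tr J Q R → Option J
  | .tU _ j => some j
  | .tL _ j => some j
  | .aU j => some j
  | .aL j => some j
  | _ => none

/-- the shift of the location in a gate -/
def Tr.z (C : CM J Q R) : Tr J Q R → J → ℤ
  | .gL r => C.del r
  | _ => 0

/-- travel vectors allowed in a state -/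
def Allowed (C : CM J Q R) : St Q R → (J → ℕ) → Prop
  | .q0, n => n = 0
  | .L r, n => ∀ j, C.zt r j → n j = 0
  | _, _ => True

/-! ## Arithmetic data -/

variable [Fintype J]

/-- the functionals -/
def ell (z : J → ℤ) (i : J) : ℤ := z i + ∑ j, z j

/-- a vector of natural numbers as a vector of integers -/
def toZ (n : J → ℕ) : J → ℤ := fun j => (n j : ℤ)

/-- Arithmetic data for a counter machine: primes, the homomorphism `rho`, the colours. -/
structure Data (C : CM J Q R) where
  /-- primes: `Sum.inl` positive, `Sum.inr` negative -/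
  pr : J ⊕ J → ℕ
  prime : ∀ i, (pr i).Prime
  odd : ∀ i, pr i ≠ 2
  M : ℤ
  es : ℤ
  ep : ℤ
  ek : St Q R → ℤ
  ek' : St Q R → ℤ
  es_pos : 0 < es
  es_lt_ep : es < ep
  ep_lt_ek : ∀ a, ep < ek a
  ek_lt : ∀ a, ek a < es + M
  ek_inj : Function.Injective ek
  ek'_pos : ∀ a, 0 < ek' a
  ek'_inj : Function.Injective ek'
  /-- the multipliers -/
  rho : (J → ℤ) → ℚˣ
  rho_add : ∀ z w, rho (z + w) = rho z * rho w
  rho_pos : ∀ z, 0 < (rho z : ℚ)
  rho_inl : ∀ z i, padicValRat (pr (.inl i)) (rho z : ℚ) = M * ell z i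
  rho_inr : ∀ z i, padicValRat (pr (.inr i)) (rho z : ℚ) = -(M * ell z i)
  /-- marks and colours -/
  s : ℚ
  p : ℚ
  k : St Q R → ℚ
  k' : St Q R → ℚ
  s_ne : s ≠ 0
  p_ne : p ≠ 0
  k_ne : ∀ a, k a ≠ 0
  k'_ne : ∀ a, k' a ≠ 0
  v_s : ∀ i, padicValRat (pr i) s = -es
  v_p : ∀ i, padicValRat (pr i) p = -ep
  v_k : ∀ i a, padicValRat (pr i) (k a) = -ek a
  v_k' : ∀ i a, padicValRat (pr i) (k' a) = -ek' a
  del_lt : ∀ r i, padicValRat (pr i) (rho (C.del r) : ℚ) < 2 * es
  /-- everything is trivial modulo 8 -/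
  two_s : padicNorm 2 s ≤ 1 / 8
  two_p : padicNorm 2 p ≤ 1 / 8
  two_k : ∀ a, padicNorm 2 (k a) ≤ 1 / 8
  two_k' : ∀ a, padicNorm 2 (k' a) ≤ 1 / 8
  two_rho : ∀ z, padicNorm 2 ((rho z : ℚ) - 1) ≤ 1 / 8

section

variable {C : CM J Q R} (D : Data C)

/-- the valuations -/
def Data.v (i : J ⊕ J) (x : ℚ) : ℤ := padicValRat (D.pr i) x

/-- coding matrices of the states -/
noncomputable def Data.Cm (a : St Q R) : G :=
  El a.ty (D.k a) * El a.ty.op (D.k' a) * El .L (-1) * (if a.asc then Dg (Units.mk0 2 two_ne_zero) else 1)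

variable [DecidableEq J]

/-- labels of the transitions -/
noncomputable def Data.g : Tr J Q R → G
  | .tU _ j => Dg (D.rho (-Pi.single j 1))
  | .gU _ => El .U D.p * El .L D.p
  | .tL _ j => Dg (D.rho (Pi.single j 1))
  | .gL r => El .L D.s * Dg (D.rho (C.del r)) * El .U D.s
  | .g0 => El .L D.s * El .U D.s
  | .aU j => Dg (D.rho (-Pi.single j 1))
  | .aG => El .U (-D.p) * El .L (-D.p)
  | .aL j => Dg (D.rho (Pi.single j 1))
  | .aH => El .L (-D.s) * El .U (-D.s)

/-- the two sides: `true` = LEFT (inverse transitions), `false` = RIGHT -/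
def srcS (C : CM J Q R) (l : Bool) (τ : Tr J Q R) : St Q R := bif l then τ.b C else τ.a C

/-- target in the system of a side -/
def tgtS (C : CM J Q R) (l : Bool) (τ : Tr J Q R) : St Q R := bif l then τ.a C else τ.b C

/-- label in the system of a side -/
noncomputable def Data.lab (l : Bool) (τ : Tr J Q R) : G := bif l then (D.g τ)⁻¹ else D.g τ

/-- letter in the system of a side -/
noncomputable def Data.Mt (l : Bool) (τ : Tr J Q R) : G :=
  (D.Cm (srcS C l τ))⁻¹ * D.lab l τ * D.Cm (tgtS C l τ)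

/-- the turning letter -/
noncomputable def Data.MT : G :=
  (D.Cm (.U C.qh))⁻¹ * El .U (D.p - D.s) * D.Cm .AU

/-- exponent of the travel multiplier -/
def epsS : Bool → ℤ
  | true => 1
  | false => -1

/-- the mark with which a level of the given type is left -/
def Data.out : Bool → Ty → ℚ
  | true, .U => D.s
  | true, .L => D.p
  | false, .U => D.p
  | false, .L => D.s

/-- exponents of these marks -/
def Data.eo : Bool → Ty → ℤ
  | true, .U => D.es
  | true, .L => D.ep
  | false, .U => D.ep
  | false, .L => D.es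

/-- sign of a gate on a side -/
def sgnS (C : CM J Q R) (l : Bool) (τ : Tr J Q R) : ℚ :=
  if (τ.a C).asc = l then 1 else -1

/-- end state of a side -/
def aeS : Bool → St Q R
  | true => .q0
  | false => .AL

/-- end coordinate of a side -/
def Data.ec (c0 : J → ℕ) : Bool → ℚ
  | true => -(D.p * (D.rho (toZ c0) : ℚ))
  | false => -D.s

/-- end point of a side: `y` for LEFT, `x0` for RIGHT -/
noncomputable def Data.pe (c0 : J → ℕ) (l : Bool) : OnePoint ℚ :=
  (D.Cm (aeS l))⁻¹ • pt .L (D.ec c0 l)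

/-- the point of a word -/
noncomputable def Data.X (c0 : J → ℕ) (l : Bool) (w : List (Tr J Q R)) : OnePoint ℚ :=
  (w.map (D.Mt l)).prod • D.pe c0 l

/-- the coordinate of a word at a state -/
noncomputable def Data.ze (c0 : J → ℕ) (l : Bool) (a : St Q R) (w : List (Tr J Q R)) : ℚ :=
  coord a.ty (D.Cm a • D.X c0 l w)

/-- all transitions of a word are allowed -/
def OkW (C : CM J Q R) (w : List (Tr J Q R)) : Prop := ∀ τ ∈ w, τ.ok C

/-- matching at a level of type `U` -/
def Data.HU (c0 : J → ℕ) (q : Q) (O A : J → ℤ) (wL wR : List (Tr J Q R)) : Prop :=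
  (D.rho O : ℚ) * (-D.p + D.ze c0 true (.U q) wL) = D.rho A * (-D.s + D.ze c0 false .AU wR)

/-- matching at a level of type `L` -/
def Data.HL (c0 : J → ℕ) (a : St Q R) (O A : J → ℤ) (wL wR : List (Tr J Q R)) : Prop :=
  (D.rho A : ℚ)⁻¹ * (-D.s + D.ze c0 true a wL) = (D.rho O : ℚ)⁻¹ * (-D.p + D.ze c0 false .AL wR)

/-- all letters, `none` is the turning letter -/
noncomputable def Data.letter : Option (Tr J Q R) → G
  | none => D.MT
  | some τ => D.Mt false τ

end

end Pool.Agent.Lib.MP_571595_lc.MORT
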